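import Pool.Agent.Helper28.ND.Spec

/-!
# MP_0c2f33_an, swarm ND: UNIQ (uniqueness for the backward heat equation)
-/

namespace Pool.Agent.Helper75.ND
open MeasureTheory Set Filter Topology
open scoped ENNReal NNReal
open Pool.Agent.Helper28.ND

theorem Q_subset_Icc (d : ℕ) : Q d ⊆ Set.Icc (0 : Fin d → ℝ) 1 := by
  intro x hx
  rw [Set.mem_Icc]
  constructor
  · intro i; exact (hx i (Set.mem_univ i)).1.le
  · intro i; exact (hx i (Set.mem_univ i)).2

theorem Q_meas (d : ℕ) : MeasurableSet (Q d) :=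
  MeasurableSet.univ_pi (fun _ => measurableSet_Ioc)

theorem Q_sub_closure (d : ℕ) : Q d ⊆ closure (interior (Q d)) := by
  unfold Q
  rw [interior_pi_set Set.finite_univ, closure_pi_set]
  intro x hx i hi
  have := hx i hi
  rw [interior_Ioc, closure_Ioo (by norm_num)]
  exact ⟨this.1.le, this.2⟩

theorem Q_finite (d : ℕ) : volume (Q d) < ⊤ :=
  lt_of_le_of_lt (measure_mono (Q_subset_Icc d)) isCompact_Icc.measure_lt_top

instance (d : ℕ) : IsFiniteMeasure ((volume : Measure (Fin d → ℝ)).restrict (Q d)) :=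
  ⟨by rw [Measure.restrict_apply_univ]; exact Q_finite d⟩

theorem cont_intOn {d : ℕ} {f : (Fin d → ℝ) → ℝ} (hf : Continuous f) : IntegrableOn f (Q d) :=
  (hf.continuousOn.integrableOn_compact isCompact_Icc).mono_set (Q_subset_Icc d)

/-- Every point is an integer translate of a point of `Q`. -/
theorem exists_Q {d : ℕ} (x : Fin d → ℝ) : ∃ y ∈ Q d, ∃ k : Fin d → ℤ, x = fun i => y i + (k i : ℝ) := by
  refine ⟨fun i => x i - (⌈x i⌉ - 1 : ℤ), ?_, fun i => ⌈x i⌉ - 1, ?_⟩
  · intro i _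
    have h1 := Int.le_ceil (x i)
    have h2 := Int.ceil_lt_add_one (x i)
    constructor
    · push_cast; linarith
    · push_cast; linarith
  · funext i; simp

theorem per_zero {d : ℕ} {f : (Fin d → ℝ) → ℝ} (hp : Per f) (h : ∀ y ∈ Q d, f y = 0) : ∀ x, f x = 0 := by
  intro x
  obtain ⟨y, hy, k, rfl⟩ := exists_Q x
  rw [hp y k]; exact h y hy

theorem per_bdd {d : ℕ} {f : (Fin d → ℝ) → ℝ} (hp : Per f) {B : ℝ} (h : ∀ y ∈ Q d, |f y| ≤ B) :
    ∀ x, |f x| ≤ B := by
  intro x
  obtain ⟨y, hy, k, rfl⟩ := exists_Q x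
  rw [hp y k]; exact h y hy

theorem sp_cont {d : ℕ} {f : ℝ → (Fin d → ℝ) → ℝ} (hf : SmoothPer f) (t : ℝ) : Continuous (f t) := by
  have : Continuous (fun x : Fin d → ℝ => U f (t, x)) :=
    hf.smooth.continuous.comp (by fun_prop)
  exact this

theorem bmp_zero {d : ℕ} : BMP (fun (_ : ℝ) (_ : Fin d → ℝ) => (0 : ℝ)) :=
  ⟨measurable_const, fun _ _ _ => rfl, ⟨0, by simp⟩⟩

theorem mol_zero {d : ℕ} (n : ℕ) (t : ℝ) (x : Fin d → ℝ) :
    mol n (fun (_ : ℝ) (_ : Fin d → ℝ) => (0 : ℝ)) t x = 0 := by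
  simp [mol]

theorem UNIQ.main (hG : S_MOLG) (hD : S_MOLD) (hE : S_ENER) : S_UNIQ := by
  intro d S D hB hS hw
  obtain ⟨g1, g2, g3, g4⟩ := hG d D hB
  have key : ∀ (n : ℕ) (t : ℝ), 1 / (4 * ((n : ℝ) + 1)) < t → ∀ x, mol n D t x = 0 := by
    intro n t ht
    have hn : (0 : ℝ) < 1 / (4 * ((n : ℝ) + 1)) := by positivity
    by_cases htS : S + 1 / (4 * ((n : ℝ) + 1)) ≤ t
    · exact g4 S hS n t htS
    push_neg at htS
    have hf := g1 n
    have hz : ∀ x, mol n D (S + 1 / (4 * ((n : ℝ) + 1))) x = 0 := g4 S hS n _ le_rfl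
    have heq := (hD d D (fun _ _ => 0) hB bmp_zero).1 (by
      intro f hf
      rw [hw f hf]; simp [U]) n
    have hen := hE d (mol n D) (fun s => s ^ 2) (fun _ => 0) hf (by fun_prop) (by fun_prop)
      t (S + 1 / (4 * ((n : ℝ) + 1))) htS.le
    have hd1 : deriv (fun s : ℝ => s ^ 2) = fun s => 2 * s := by
      funext s; simp
    have hd2 : deriv (fun s : ℝ => 2 * s) = fun _ => (2 : ℝ) := by
      funext s
      simpa using ((hasDerivAt_id s).const_mul (2 : ℝ)).deriv
    rw [hd1, hd2] at hen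
    have hr : 0 ≤ ∫ s in Ioc t (S + 1 / (4 * ((n : ℝ) + 1))), ∫ x in Q d,
        (2 * (mol n D s x - 0) * (dt (mol n D) s x + lap (mol n D s) x - deriv (fun _ : ℝ => (0 : ℝ)) s)
          + 2 * ∑ i, (pd i (mol n D s) x) ^ 2) := by
      apply setIntegral_nonneg measurableSet_Ioc
      intro s hs
      apply integral_nonneg
      intro x
      have h1 := heq s x (lt_trans ht hs.1)
      rw [mol_zero] at h1
      simp only [Pi.zero_apply]
      rw [h1]
      simp only [neg_zero, deriv_const, sub_zero, mul_zero, zero_add]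
      positivity
    have h0 : ∫ x in Q d, (mol n D (S + 1 / (4 * ((n : ℝ) + 1))) x - 0) ^ 2 = 0 := by
      simp_rw [hz]; simp
    have hle : ∫ x in Q d, (mol n D t x) ^ 2 ≤ 0 := by
      have h3 : ∫ x in Q d, (mol n D t x - 0) ^ 2 = ∫ x in Q d, (mol n D t x) ^ 2 := by simp
      rw [h0, h3] at hen
      beta_reduce at hen
      rw [← hen] at hr
      linarith
    have hc : Continuous (mol n D t) := sp_cont hf t
    have hz2 : (fun x => (mol n D t x) ^ 2) =ᵐ[volume.restrict (Q d)] 0 := by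
      rw [← integral_eq_zero_iff_of_nonneg (fun x => sq_nonneg _) (cont_intOn (hc.pow 2))]
      exact le_antisymm hle (integral_nonneg (fun x => sq_nonneg _))
    have hz3 := MeasureTheory.Measure.eqOn_of_ae_eq hz2 (hc.pow 2).continuousOn continuousOn_const
      (Q_sub_closure d)
    apply per_zero (hf.per t)
    intro y hy
    have := hz3 hy
    simpa using this
  filter_upwards [g3] with z hz hz0
  have hlim : Tendsto (fun n : ℕ => 1 / (4 * ((n : ℝ) + 1))) atTop (𝓝 0) := by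
    have h1 := (tendsto_one_div_add_atTop_nhds_zero_nat (𝕜 := ℝ)).const_mul (1 / 4 : ℝ)
    simp only [mul_zero] at h1
    refine h1.congr ?_
    intro n
    field_simp
  have hev : ∀ᶠ n : ℕ in atTop, U (mol n D) z = 0 := by
    filter_upwards [hlim.eventually_lt_const hz0] with n hn
    exact key n z.1 hn z.2
  exact tendsto_nhds_unique hz (tendsto_const_nhds.congr' (hev.mono (fun n h => h.symm)))

end Pool.Agent.Helper75.ND
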