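import Pool.Agent.Helper28.ND.Spec
import Pool.Agent.Helper75.ND.UNIQ

/-!
# MP_0c2f33_an, swarm ND: CUT (cutting off in time)
-/

namespace Pool.Agent.Helper75.ND
open MeasureTheory Set Filter Topology
open scoped ENNReal NNReal ContDiff
open Pool.Agent.Helper28.ND

/-- `U f` smooth gives a directional derivative formula. -/
theorem pd_eq {d : ℕ} {f : ℝ → (Fin d → ℝ) → ℝ} (hf : ContDiff ℝ (⊤ : ℕ∞) (U f)) (i : Fin d)
    (t : ℝ) (x : Fin d → ℝ) :
    pd i (f t) x = fderiv ℝ (U f) (t, x) (0, Pi.single i 1) := by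
  have h1 : HasFDerivAt (U f) (fderiv ℝ (U f) (t, x)) (t, x) :=
    (hf.differentiable (by simp)).differentiableAt.hasFDerivAt
  have h2 : HasFDerivAt (fun y : Fin d → ℝ => ((t, y) : ℝ × (Fin d → ℝ)))
      (ContinuousLinearMap.inr ℝ ℝ (Fin d → ℝ)) x := hasFDerivAt_prodMk_right t x
  have h3 : HasFDerivAt (f t) ((fderiv ℝ (U f) (t, x)).comp (ContinuousLinearMap.inr ℝ ℝ (Fin d → ℝ))) x :=
    HasFDerivAt.comp x h1 h2
  unfold pd
  rw [h3.fderiv]
  simp

theorem dt_eq {d : ℕ} {f : ℝ → (Fin d → ℝ) → ℝ} (hf : ContDiff ℝ (⊤ : ℕ∞) (U f))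
    (t : ℝ) (x : Fin d → ℝ) :
    dt f t x = fderiv ℝ (U f) (t, x) (1, 0) := by
  have h1 : HasFDerivAt (U f) (fderiv ℝ (U f) (t, x)) (t, x) :=
    (hf.differentiable (by simp)).differentiableAt.hasFDerivAt
  have h2 : HasFDerivAt (fun s : ℝ => ((s, x) : ℝ × (Fin d → ℝ)))
      (ContinuousLinearMap.inl ℝ ℝ (Fin d → ℝ)) t := hasFDerivAt_prodMk_left t x
  have h0 : HasFDerivAt (U f ∘ fun s => ((s, x) : ℝ × (Fin d → ℝ)))
      ((fderiv ℝ (U f) (t, x)).comp (ContinuousLinearMap.inl ℝ ℝ (Fin d → ℝ))) t :=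
    HasFDerivAt.comp t h1 h2
  have h3 : HasFDerivAt (fun s => f s x) ((fderiv ℝ (U f) (t, x)).comp (ContinuousLinearMap.inl ℝ ℝ (Fin d → ℝ))) t := h0
  unfold dt
  rw [h3.hasDerivAt.deriv]
  simp

/-- The function `pd i (f t) x`. -/
noncomputable def D1 {d : ℕ} (i : Fin d) (f : ℝ → (Fin d → ℝ) → ℝ) : ℝ → (Fin d → ℝ) → ℝ :=
  fun t x => pd i (f t) x

theorem U_D1 {d : ℕ} {f : ℝ → (Fin d → ℝ) → ℝ} (hf : ContDiff ℝ (⊤ : ℕ∞) (U f)) (i : Fin d) :
    U (D1 i f) = fun z => fderiv ℝ (U f) z (0, Pi.single i 1) := by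
  funext z; exact pd_eq hf i z.1 z.2

theorem U_dt {d : ℕ} {f : ℝ → (Fin d → ℝ) → ℝ} (hf : ContDiff ℝ (⊤ : ℕ∞) (U f)) :
    U (dt f) = fun z => fderiv ℝ (U f) z (1, 0) := by
  funext z; exact dt_eq hf z.1 z.2

theorem smooth_D1 {d : ℕ} {f : ℝ → (Fin d → ℝ) → ℝ} (hf : ContDiff ℝ (⊤ : ℕ∞) (U f)) (i : Fin d) :
    ContDiff ℝ (⊤ : ℕ∞) (U (D1 i f)) := by
  rw [U_D1 hf]
  exact (hf.fderiv_right (m := (⊤ : ℕ∞)) (by simp)).clm_apply contDiff_const

theorem smooth_dt {d : ℕ} {f : ℝ → (Fin d → ℝ) → ℝ} (hf : ContDiff ℝ (⊤ : ℕ∞) (U f)) :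
    ContDiff ℝ (⊤ : ℕ∞) (U (dt f)) := by
  rw [U_dt hf]
  exact (hf.fderiv_right (m := (⊤ : ℕ∞)) (by simp)).clm_apply contDiff_const

theorem supp_D1 {d : ℕ} {f : ℝ → (Fin d → ℝ) → ℝ} (hf : ContDiff ℝ (⊤ : ℕ∞) (U f))
    (hs : HasCompactSupport (U f)) (i : Fin d) : HasCompactSupport (U (D1 i f)) := by
  rw [U_D1 hf]
  exact hs.fderiv_apply ℝ _

theorem supp_dt {d : ℕ} {f : ℝ → (Fin d → ℝ) → ℝ} (hf : ContDiff ℝ (⊤ : ℕ∞) (U f))
    (hs : HasCompactSupport (U f)) : HasCompactSupport (U (dt f)) := by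
  rw [U_dt hf]
  exact hs.fderiv_apply ℝ _

theorem lap_eq {d : ℕ} (f : ℝ → (Fin d → ℝ) → ℝ) (t : ℝ) (x : Fin d → ℝ) :
    lap (f t) x = ∑ i, D1 i (D1 i f) t x := rfl

theorem smooth_lap {d : ℕ} {f : ℝ → (Fin d → ℝ) → ℝ} (hf : ContDiff ℝ (⊤ : ℕ∞) (U f)) :
    ContDiff ℝ (⊤ : ℕ∞) (fun z : ℝ × (Fin d → ℝ) => lap (f z.1) z.2) := by
  have : (fun z : ℝ × (Fin d → ℝ) => lap (f z.1) z.2) = fun z => ∑ i, U (D1 i (D1 i f)) z := rfl
  rw [this]
  exact ContDiff.sum (fun i _ => smooth_D1 (smooth_D1 hf i) i)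

theorem supp_lap {d : ℕ} {f : ℝ → (Fin d → ℝ) → ℝ} (hf : ContDiff ℝ (⊤ : ℕ∞) (U f))
    (hs : HasCompactSupport (U f)) :
    HasCompactSupport (fun z : ℝ × (Fin d → ℝ) => lap (f z.1) z.2) := by
  have : (fun z : ℝ × (Fin d → ℝ) => lap (f z.1) z.2) = ∑ i, U (D1 i (D1 i f)) := by
    funext z; rw [Finset.sum_apply]; rfl
  rw [this]
  exact HasCompactSupport.finset_sum (fun i _ => supp_D1 (smooth_D1 hf i) (supp_D1 hf hs i) i)

/-- bounded measurable times continuous compactly supported is integrable. -/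
theorem int_mul {α : Type*} [TopologicalSpace α] [MeasurableSpace α] [OpensMeasurableSpace α]
    {μ : Measure α} [IsFiniteMeasureOnCompacts μ] {E g : α → ℝ}
    (hE : AEStronglyMeasurable E μ) {B : ℝ} (hB : ∀ z, |E z| ≤ B)
    (hg : Integrable g μ) : Integrable (fun z => E z * g z) μ :=
  hg.bdd_mul hE (Filter.Eventually.of_forall (fun z => by simpa using hB z))

theorem pd_cmul {d : ℕ} {g : (Fin d → ℝ) → ℝ} (hg : Differentiable ℝ g) (i : Fin d) (a : ℝ) :
    pd i (fun x => a * g x) = fun x => a * pd i g x := by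
  funext x
  unfold pd
  rw [fderiv_const_mul (hg x)]
  simp

theorem diff_sl {d : ℕ} {f : ℝ → (Fin d → ℝ) → ℝ} (hf : ContDiff ℝ (⊤ : ℕ∞) (U f)) (t : ℝ) :
    Differentiable ℝ (f t) := by
  have : Differentiable ℝ (fun x : Fin d → ℝ => U f (t, x)) :=
    (hf.differentiable (by simp)).comp (by fun_prop)
  exact this

theorem diff_t {d : ℕ} {f : ℝ → (Fin d → ℝ) → ℝ} (hf : ContDiff ℝ (⊤ : ℕ∞) (U f)) (x : Fin d → ℝ) :
    Differentiable ℝ (fun t => f t x) := by
  have : Differentiable ℝ (fun t : ℝ => U f (t, x)) :=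
    (hf.differentiable (by simp)).comp (by fun_prop)
  exact this

theorem lap_cmul {d : ℕ} {f : ℝ → (Fin d → ℝ) → ℝ} (hf : ContDiff ℝ (⊤ : ℕ∞) (U f)) (t a : ℝ)
    (x : Fin d → ℝ) : lap (fun x => a * f t x) x = a * lap (f t) x := by
  unfold lap
  rw [Finset.mul_sum]
  refine Finset.sum_congr rfl (fun i _ => ?_)
  rw [pd_cmul (diff_sl hf t)]
  exact congrFun (pd_cmul (diff_sl (smooth_D1 hf i) t) i a) x

theorem CC_cmul {d : ℕ} {f : ℝ → (Fin d → ℝ) → ℝ} (hf : CC f) {c : ℝ → ℝ}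
    (hc : ContDiff ℝ (⊤ : ℕ∞) c) : CC (fun t x => c t * f t x) := by
  refine ⟨?_, ?_, ?_⟩
  · have : U (fun t x => c t * f t x) = fun z : ℝ × (Fin d → ℝ) => c z.1 * U f z := rfl
    rw [this]
    exact (hc.comp contDiff_fst).mul hf.smooth
  · have : U (fun t x => c t * f t x) = (fun z : ℝ × (Fin d → ℝ) => c z.1) * U f := rfl
    rw [this]
    exact hf.supp.mul_left
  · intro t ht x
    simp [hf.pos t ht x]

theorem dt_cmul {d : ℕ} {f : ℝ → (Fin d → ℝ) → ℝ} (hf : ContDiff ℝ (⊤ : ℕ∞) (U f)) {c : ℝ → ℝ}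
    (hc : ContDiff ℝ (⊤ : ℕ∞) c) (t : ℝ) (x : Fin d → ℝ) :
    dt (fun t x => c t * f t x) t x = deriv c t * f t x + c t * dt f t x := by
  unfold dt
  exact deriv_mul (hc.differentiable (by simp)).differentiableAt (diff_t hf x).differentiableAt

/-- The fundamental lemma on `{0 < t}`. -/
theorem fund_pos {d : ℕ} {E : ℝ → (Fin d → ℝ) → ℝ} (hE : BMP E)
    (h : ∀ f : ℝ → (Fin d → ℝ) → ℝ, CC f → ∫ z : ℝ × (Fin d → ℝ), U E z * U f z = 0) :
    ∀ᵐ z : ℝ × (Fin d → ℝ), 0 < z.1 → U E z = 0 := by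
  obtain ⟨B, hB⟩ := hE.bdd
  have hU : IsOpen {z : ℝ × (Fin d → ℝ) | 0 < z.1} := isOpen_lt continuous_const continuous_fst
  have hloc : LocallyIntegrable (U E) volume := by
    have h1 : LocallyIntegrable (fun _ : ℝ × (Fin d → ℝ) => (B : ℝ)) volume :=
      locallyIntegrable_const B
    exact h1.mono hE.meas.aestronglyMeasurable (Filter.Eventually.of_forall (fun z => by
      have := hB z.1 z.2
      rw [Real.norm_eq_abs, Real.norm_eq_abs]
      exact this.trans (le_abs_self _)))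
  refine hU.ae_eq_zero_of_integral_contDiff_smul_eq_zero (hloc.locallyIntegrableOn _) ?_
  intro g hg1 hg2 hg3
  have hcc : CC (fun t x => g (t, x)) := by
    refine ⟨hg1, hg2, ?_⟩
    intro t ht x
    by_contra hne
    have : ((t, x) : ℝ × (Fin d → ℝ)) ∈ tsupport g := subset_tsupport g hne
    have := hg3 this
    simp only [mem_setOf_eq] at this
    linarith
  have := h _ hcc
  rw [← this]
  refine integral_congr_ae (Filter.Eventually.of_forall (fun z => ?_))
  simp only [smul_eq_mul]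
  exact mul_comm _ _

theorem BMP_of_Src {d : ℕ} {S : ℝ} {F : ℝ → (Fin d → ℝ) → ℝ} (h : Src S F) : BMP F :=
  ⟨h.meas, h.per, h.bdd⟩

theorem CUT.main (hW : S_WEQ) (hK : S_KB) (hU : S_UNIQ) : S_CUT := by
  intro d S F c hS hF hc hcb hc0
  obtain ⟨kb1, kb2, kb3, -⟩ := hK d S F hS hF
  obtain ⟨B, hB⟩ := hcb
  have hB0 : 0 ≤ B := (abs_nonneg _).trans (hB 0).1
  have hcm : Measurable c := hc.continuous.measurable
  have hcm' : Measurable (deriv c) := measurable_deriv c
  have hG : Src S (fun t x => c t * F t x - deriv c t * Phi S F t x) := by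
    refine ⟨?_, ?_, ?_, ?_⟩
    · have : U (fun t x => c t * F t x - deriv c t * Phi S F t x)
          = fun z : ℝ × (Fin d → ℝ) => c z.1 * U F z - deriv c z.1 * U (Phi S F) z := rfl
      rw [this]
      exact ((hcm.comp measurable_fst).mul hF.meas).sub ((hcm'.comp measurable_fst).mul kb1.meas)
    · intro t x k
      simp only
      rw [hF.per t x k, kb1.per t x k]
    · obtain ⟨B1, hB1⟩ := hF.bdd
      obtain ⟨B2, hB2⟩ := kb1.bdd
      refine ⟨B * B1 + B * B2, fun t x => ?_⟩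
      have h1 : |c t * F t x| ≤ B * B1 := by
        rw [abs_mul]; exact mul_le_mul (hB t).1 (hB1 t x) (abs_nonneg _) hB0
      have h2 : |deriv c t * Phi S F t x| ≤ B * B2 := by
        rw [abs_mul]; exact mul_le_mul (hB t).2 (hB2 t x) (abs_nonneg _) hB0
      exact (abs_sub _ _).trans (add_le_add h1 h2)
    · intro t ht x
      rcases ht with ht | ht
      · simp [hF.supp t (Or.inl ht) x, hc0 t ht]
      · simp [hF.supp t (Or.inr ht) x, (kb3 t ht x).1]
  refine ⟨hG, ?_⟩
  set G : ℝ → (Fin d → ℝ) → ℝ := fun t x => c t * F t x - deriv c t * Phi S F t x with hGdef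
  obtain ⟨kg1, kg2, kg3, -⟩ := hK d S G hS hG
  -- bounded measurable combinations
  have mk : ∀ E1 E2 : ℝ → (Fin d → ℝ) → ℝ, BMP E1 → BMP E2 →
      BMP (fun t x => c t * E1 t x - E2 t x) := by
    intro E1 E2 h1 h2
    refine ⟨?_, ?_, ?_⟩
    · have : U (fun t x => c t * E1 t x - E2 t x)
          = fun z : ℝ × (Fin d → ℝ) => c z.1 * U E1 z - U E2 z := rfl
      rw [this]
      exact ((hcm.comp measurable_fst).mul h1.meas).sub h2.meas
    · intro t x k
      simp only
      rw [h1.per t x k, h2.per t x k]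
    · obtain ⟨B1, hB1⟩ := h1.bdd
      obtain ⟨B2, hB2⟩ := h2.bdd
      refine ⟨B * B1 + B2, fun t x => ?_⟩
      have h1 : |c t * E1 t x| ≤ B * B1 := by
        rw [abs_mul]; exact mul_le_mul (hB t).1 (hB1 t x) (abs_nonneg _) hB0
      exact (abs_sub _ _).trans (add_le_add h1 (hB2 t x))
  have imul : ∀ (E : ℝ → (Fin d → ℝ) → ℝ), BMP E → ∀ g : ℝ × (Fin d → ℝ) → ℝ, Continuous g →
      HasCompactSupport g → Integrable (fun z => U E z * g z) := by
    intro E hE g hg1 hg2
    obtain ⟨B1, hB1⟩ := hE.bdd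
    exact int_mul hE.meas.aestronglyMeasurable (fun z => hB1 z.1 z.2)
      (hg1.integrable_of_hasCompactSupport hg2)
  -- first claim
  have hD : ∀ᵐ z : ℝ × (Fin d → ℝ), 0 < z.1 →
      U (fun t x => c t * Phi S F t x - Phi S G t x) z = 0 := by
    apply hU d S _ (mk _ _ kb1 kg1)
    · intro t ht x
      simp [(kb3 t ht x).1, (kg3 t ht x).1]
    · intro f hf
      have hcf := CC_cmul hf hc
      have e1 := (hW d S F hS hF _ hcf).1
      have e2 := (hW d S G hS hG _ hf).1
      have i1 := imul _ kb1 _ ((smooth_lap hcf.smooth).continuous.sub (smooth_dt hcf.smooth).continuous)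
        ((supp_lap hcf.smooth hcf.supp).sub (supp_dt hcf.smooth hcf.supp))
      have i2 := imul _ kg1 _ ((smooth_lap hf.smooth).continuous.sub (smooth_dt hf.smooth).continuous)
        ((supp_lap hf.smooth hf.supp).sub (supp_dt hf.smooth hf.supp))
      have i3 := imul _ (BMP_of_Src hF) _ hcf.smooth.continuous hcf.supp
      have i4 := imul _ (BMP_of_Src hG) _ hf.smooth.continuous hf.supp
      have pw : ∀ z : ℝ × (Fin d → ℝ),
          U (fun t x => c t * Phi S F t x - Phi S G t x) z * (lap (f z.1) z.2 - dt f z.1 z.2)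
          = U (Phi S F) z * (lap ((fun t x => c t * f t x) z.1) z.2 - dt (fun t x => c t * f t x) z.1 z.2)
            - U (Phi S G) z * (lap (f z.1) z.2 - dt f z.1 z.2)
            + (U F z * U (fun t x => c t * f t x) z - U G z * U f z) := by
        intro z
        have a1 : lap ((fun t x => c t * f t x) z.1) z.2 = c z.1 * lap (f z.1) z.2 :=
          lap_cmul hf.smooth z.1 (c z.1) z.2
        have a2 := dt_cmul hf.smooth hc z.1 z.2
        rw [a1, a2]
        simp only [U, hGdef]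
        ring
      have i1' : Integrable (fun z : ℝ × (Fin d → ℝ) => U (Phi S F) z *
          (lap ((fun t x => c t * f t x) z.1) z.2 - dt (fun t x => c t * f t x) z.1 z.2)) := i1
      have i2' : Integrable (fun z : ℝ × (Fin d → ℝ) => U (Phi S G) z *
          (lap (f z.1) z.2 - dt f z.1 z.2)) := i2
      have i5 : Integrable (fun z : ℝ × (Fin d → ℝ) => (U (Phi S F) z *
          (lap ((fun t x => c t * f t x) z.1) z.2 - dt (fun t x => c t * f t x) z.1 z.2)
            - U (Phi S G) z * (lap (f z.1) z.2 - dt f z.1 z.2))) := i1'.sub i2'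
      have i6 : Integrable (fun z : ℝ × (Fin d → ℝ) => (U F z * U (fun t x => c t * f t x) z
          - U G z * U f z)) := i3.sub i4
      calc ∫ z : ℝ × (Fin d → ℝ), U (fun t x => c t * Phi S F t x - Phi S G t x) z
            * (lap (f z.1) z.2 - dt f z.1 z.2)
          = ∫ z : ℝ × (Fin d → ℝ), ((U (Phi S F) z * (lap ((fun t x => c t * f t x) z.1) z.2
              - dt (fun t x => c t * f t x) z.1 z.2)
            - U (Phi S G) z * (lap (f z.1) z.2 - dt f z.1 z.2))
            + (U F z * U (fun t x => c t * f t x) z - U G z * U f z)) :=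
            integral_congr_ae (Filter.Eventually.of_forall pw)
        _ = 0 := by
            rw [integral_add i5 i6, integral_sub i1' i2', integral_sub i3 i4]
            rw [e1, e2]
            ring
  -- second claim
  have hV : ∀ i, ∀ᵐ z : ℝ × (Fin d → ℝ), 0 < z.1 →
      U (fun t x => c t * Vel S F i t x - Vel S G i t x) z = 0 := by
    intro i
    apply fund_pos (mk _ _ (kb2 i) (kg2 i))
    intro f hf
    have hcf := CC_cmul hf hc
    have e1 := (hW d S F hS hF _ hcf).2 i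
    have e2 := (hW d S G hS hG _ hf).2 i
    have i1 := imul _ kb1 _ (smooth_D1 hcf.smooth i).continuous (supp_D1 hcf.smooth hcf.supp i)
    have i2 := imul _ kg1 _ (smooth_D1 hf.smooth i).continuous (supp_D1 hf.smooth hf.supp i)
    have i3 := imul _ (kb2 i) _ hcf.smooth.continuous hcf.supp
    have i4 := imul _ (kg2 i) _ hf.smooth.continuous hf.supp
    have z0 : ∫ z : ℝ × (Fin d → ℝ), (U (Phi S F) z * U (D1 i (fun t x => c t * f t x)) z
        - U (Phi S G) z * U (D1 i f) z) = 0 := by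
      have : ∀ᵐ z : ℝ × (Fin d → ℝ), (U (Phi S F) z * U (D1 i (fun t x => c t * f t x)) z
        - U (Phi S G) z * U (D1 i f) z) = 0 := by
        filter_upwards [hD] with z hz
        have a1 : U (D1 i (fun t x => c t * f t x)) z = c z.1 * U (D1 i f) z := by
          have := congrFun (pd_cmul (diff_sl hf.smooth z.1) i (c z.1)) z.2
          exact this
        rw [a1]
        by_cases hz1 : 0 < z.1
        · have := hz hz1
          simp only [U] at this ⊢
          have h3 : c z.1 * Phi S F z.1 z.2 = Phi S G z.1 z.2 := by linarith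
          rw [← h3]; ring
        · have h4 : U (D1 i f) z = 0 := by
            have : f z.1 = fun _ => 0 := by
              funext y; exact hf.pos z.1 (not_lt.mp hz1) y
            simp only [U, D1, pd, this]
            simp
          rw [h4]; ring
      rw [integral_congr_ae this]; simp
    rw [integral_sub i1 i2] at z0
    have pw : ∀ z : ℝ × (Fin d → ℝ),
        U (fun t x => c t * Vel S F i t x - Vel S G i t x) z * U f z
        = U (Vel S F i) z * U (fun t x => c t * f t x) z - U (Vel S G i) z * U f z := by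
      intro z; simp only [U]; ring
    rw [integral_congr_ae (Filter.Eventually.of_forall pw), integral_sub i3 i4]
    have e1' : ∫ z : ℝ × (Fin d → ℝ), U (Phi S F) z * U (D1 i (fun t x => c t * f t x)) z
        = - ∫ z : ℝ × (Fin d → ℝ), U (Vel S F i) z * U (fun t x => c t * f t x) z := e1
    have e2' : ∫ z : ℝ × (Fin d → ℝ), U (Phi S G) z * U (D1 i f) z
        = - ∫ z : ℝ × (Fin d → ℝ), U (Vel S G i) z * U f z := e2
    linarith
  have hVa := ae_all_iff.mpr hV
  filter_upwards [hD, hVa] with z h1 h2 hz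
  refine ⟨?_, fun i => ?_⟩
  · have := h1 hz
    simp only [U] at this
    linarith
  · have := h2 i hz
    simp only [U] at this
    linarith

end Pool.Agent.Helper75.ND
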