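import Pool.Agent.Helper28.ND.Spec
import Pool.Agent.Helper75.ND.CUT

/-!
# MP_0c2f33_an, swarm ND: DIV2
-/

namespace Pool.Agent.Helper75.ND
open MeasureTheory Set Filter Topology
open scoped ENNReal NNReal ContDiff
open Pool.Agent.Helper28.ND

theorem DIV2.main : S_DIV2 := by
  intro d T p b hT hb _ f hf
  obtain ⟨hsm, S, hST, hfS⟩ := hf
  set G : ℝ → ℝ := fun t => ∫ x in Q d, ∑ i, b t x i * pd i (f t) x with hG
  set th : ℕ → ℝ → ℝ := fun n t => Real.smoothTransition (((n : ℝ) + 1) * t - 1) with hth
  have hths : ∀ n, ContDiff ℝ (⊤ : ℕ∞) (th n) := by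
    intro n
    exact Real.smoothTransition.contDiff.comp (by fun_prop)
  have hzero : ∀ n, ∫ t in Ioo 0 T, th n t * G t = 0 := by
    intro n
    have htest : IsTest0 T (fun t x => th n t * f t x) := by
      refine ⟨⟨?_, ?_⟩, min (1 / ((n : ℝ) + 1)) (T - S), ?_, ?_⟩
      · have : U (fun t x => th n t * f t x) = fun z : ℝ × (Fin d → ℝ) => th n z.1 * U f z := rfl
        rw [this]
        exact ((hths n).comp contDiff_fst).mul hsm.smooth
      · intro t x k
        simp only
        rw [hsm.per t x k]
      · apply lt_min (by positivity); linarith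
      · intro t ht x
        rcases ht with ht | ht
        · have h1 : t ≤ 1 / ((n : ℝ) + 1) := ht.trans (min_le_left _ _)
          have h2 : ((n : ℝ) + 1) * t - 1 ≤ 0 := by
            have hp : (0 : ℝ) < (n : ℝ) + 1 := by positivity
            have h4 : ((n : ℝ) + 1) * t ≤ ((n : ℝ) + 1) * (1 / ((n : ℝ) + 1)) :=
              mul_le_mul_of_nonneg_left h1 hp.le
            rw [mul_one_div_cancel hp.ne'] at h4
            linarith
          have h3 : th n t = 0 := Real.smoothTransition.zero_of_nonpos h2
          simp [h3]
        · have h1 : S ≤ t := by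
            have := min_le_right (1 / ((n : ℝ) + 1)) (T - S)
            linarith
          simp [hfS t h1 x]
    have := hb.div _ htest
    refine Eq.trans ?_ this
    apply setIntegral_congr_fun measurableSet_Ioo
    intro t _
    simp only [hG]
    rw [← integral_const_mul]
    refine integral_congr_ae (Filter.Eventually.of_forall (fun x => ?_))
    simp only
    rw [Finset.mul_sum]
    refine Finset.sum_congr rfl (fun i _ => ?_)
    rw [congrFun (pd_cmul (diff_sl hsm.smooth t) i (th n t)) x]
    ring
  by_cases hGi : IntegrableOn G (Ioo 0 T)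
  · have hlim : Tendsto (fun n : ℕ => ∫ t in Ioo 0 T, th n t * G t) atTop
        (𝓝 (∫ t in Ioo 0 T, G t)) := by
      apply tendsto_integral_of_dominated_convergence (fun t => |G t|)
      · intro n
        exact ((hths n).continuous.aestronglyMeasurable).mul hGi.aestronglyMeasurable
      · exact hGi.abs
      · intro n
        refine Filter.Eventually.of_forall (fun t => ?_)
        rw [Real.norm_eq_abs, abs_mul]
        have h0 := Real.smoothTransition.nonneg (((n : ℝ) + 1) * t - 1)
        have h1 := Real.smoothTransition.le_one (((n : ℝ) + 1) * t - 1)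
        have h2 : |th n t| ≤ 1 := by
          rw [abs_of_nonneg h0]; exact h1
        calc |th n t| * |G t| ≤ 1 * |G t| := mul_le_mul_of_nonneg_right h2 (abs_nonneg _)
          _ = |G t| := one_mul _
      · refine (ae_restrict_iff' measurableSet_Ioo).mpr (Filter.Eventually.of_forall (fun t ht => ?_))
        have hev : ∀ᶠ n : ℕ in atTop, th n t * G t = G t := by
          obtain ⟨N, hN⟩ := exists_nat_gt (2 / t)
          filter_upwards [eventually_ge_atTop N] with n hn
          have h1 : (1 : ℝ) ≤ ((n : ℝ) + 1) * t - 1 := by
            have h2 : 2 / t < (n : ℝ) + 1 := by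
              have : (N : ℝ) ≤ n := by exact_mod_cast hn
              linarith
            rw [div_lt_iff₀ ht.1] at h2
            linarith
          have h3 : th n t = 1 := Real.smoothTransition.one_of_one_le h1
          rw [h3, one_mul]
        exact tendsto_const_nhds.congr' (hev.mono (fun n h => h.symm))
    have h0 : Tendsto (fun n : ℕ => ∫ t in Ioo 0 T, th n t * G t) atTop (𝓝 0) := by
      simp_rw [hzero]; exact tendsto_const_nhds
    exact tendsto_nhds_unique hlim h0
  · exact integral_undef hGi

end Pool.Agent.Helper75.ND
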