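import Pool.Agent.Helper28.ND.Spec
import Pool.Agent.Helper75.ND.CUT

/-!
# MP_0c2f33_an, swarm ND: KEY3
-/

namespace Pool.Agent.Helper75.ND
open MeasureTheory Set Filter Topology
open scoped ENNReal NNReal ContDiff
open Pool.Agent.Helper28.ND

/-- The product measure on `I × Q`. -/
noncomputable def mu (d : ℕ) (I : Set ℝ) : Measure (ℝ × (Fin d → ℝ)) :=
  ((volume : Measure ℝ).restrict I).prod ((volume : Measure (Fin d → ℝ)).restrict (Q d))

theorem mu_eq (d : ℕ) (I : Set ℝ) : mu d I = (volume : Measure (ℝ × (Fin d → ℝ))).restrict (I ×ˢ Q d) := by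
  unfold mu
  rw [Measure.prod_restrict]; rfl

theorem ae_mu {d : ℕ} {I : Set ℝ} (hI : MeasurableSet I) {P : ℝ × (Fin d → ℝ) → Prop}
    (h : ∀ᵐ z : ℝ × (Fin d → ℝ), P z) : ∀ᵐ z ∂(mu d I), P z := by
  rw [mu_eq]; exact ae_restrict_of_ae h

theorem ae_mu_mem {d : ℕ} {I : Set ℝ} (hI : MeasurableSet I) {P : ℝ × (Fin d → ℝ) → Prop}
    (h : ∀ z : ℝ × (Fin d → ℝ), z.1 ∈ I → z.2 ∈ Q d → P z) : ∀ᵐ z ∂(mu d I), P z := by
  rw [mu_eq]
  filter_upwards [ae_restrict_mem (hI.prod (Q_meas d))] with z hz
  exact h z hz.1 hz.2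

theorem dct {d : ℕ} {I : Set ℝ} (g : ℕ → ℝ → (Fin d → ℝ) → ℝ)
    (g0 w : ℝ → (Fin d → ℝ) → ℝ) (hm : ∀ n, AEStronglyMeasurable (U (g n)) (mu d I))
    (hm0 : AEStronglyMeasurable (U g0) (mu d I))
    (hw : Integrable (U w) (mu d I)) (hb : ∀ n, ∀ᵐ z ∂(mu d I), |U (g n) z| ≤ U w z)
    (hl : ∀ᵐ z ∂(mu d I), Tendsto (fun n => U (g n) z) atTop (𝓝 (U g0 z))) :
    Tendsto (fun n => ∫ t in I, ∫ x in Q d, g n t x) atTop (𝓝 (∫ t in I, ∫ x in Q d, g0 t x)) := by
  have hi : ∀ n, Integrable (U (g n)) (mu d I) := fun n =>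
    hw.mono' (hm n) ((hb n).mono (fun z hz => by rwa [Real.norm_eq_abs]))
  have hb0 : ∀ᵐ z ∂(mu d I), ‖U g0 z‖ ≤ U w z := by
    filter_upwards [hl, ae_all_iff.mpr hb] with z h1 h2
    exact le_of_tendsto h1.norm (Filter.Eventually.of_forall (fun n => by
      rw [Real.norm_eq_abs]; exact h2 n))
  have hi0 : Integrable (U g0) (mu d I) := hw.mono' hm0 hb0
  have e : ∀ n, ∫ t in I, ∫ x in Q d, g n t x = ∫ z, U (g n) z ∂(mu d I) := fun n =>
    (integral_prod _ (hi n)).symm
  have e0 : ∫ t in I, ∫ x in Q d, g0 t x = ∫ z, U g0 z ∂(mu d I) := (integral_prod _ hi0).symm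
  simp_rw [e, e0]
  exact tendsto_integral_of_dominated_convergence (U w) hm hw
    (fun n => (hb n).mono (fun z hz => by rwa [Real.norm_eq_abs])) hl

theorem Src_FF {d : ℕ} {S K H : ℝ} {c : ℝ → (Fin d → ℝ) → (Fin d → ℝ)} {h : ℝ → (Fin d → ℝ) → ℝ}
    {v : ℝ → (Fin d → ℝ) → (Fin d → ℝ)} (hv : Dual d S K H c h v) : Src S (FF c h v) := by
  have dat := hv.dat
  refine ⟨?_, ?_, ?_, ?_⟩
  · have : U (FF c h v) = fun z : ℝ × (Fin d → ℝ) => (∑ i, U c z i * U v z i) + U h z := rfl
    rw [this]
    refine Measurable.add (Finset.measurable_sum _ (fun i _ => ?_)) dat.meash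
    exact ((measurable_pi_apply i).comp dat.measc).mul ((measurable_pi_apply i).comp hv.measv)
  · intro t x k
    unfold FF
    rw [dat.perc t x k, hv.perv t x k, dat.perh t x k]
  · obtain ⟨B, hB⟩ := hv.bv
    refine ⟨(∑ _i : Fin d, K * B) + H, fun t x => ?_⟩
    unfold FF
    refine (abs_add_le _ _).trans (add_le_add ((Finset.abs_sum_le_sum_abs _ _).trans
      (Finset.sum_le_sum (fun i _ => ?_))) (dat.bh t x))
    rw [abs_mul]
    exact mul_le_mul (dat.bc t x i) (hB t x i) (abs_nonneg _) ((abs_nonneg _).trans (dat.bc t x i))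
  · intro t ht x
    have ht' : t ≤ 1 ∨ S ≤ t := ht.imp (fun h => h.trans zero_le_one) id
    unfold FF
    rw [dat.sh t ht' x]
    simp [dat.sc t ht' x]

theorem mol_bd {d : ℕ} (hG : S_MOLG) {D : ℝ → (Fin d → ℝ) → ℝ} (hD : BMP D) :
    ∃ B : ℝ, 0 ≤ B ∧ ∀ (n : ℕ) t x, 1 / (4 * ((n : ℝ) + 1)) < t → |mol n D t x| ≤ B := by
  obtain ⟨B, hB⟩ := hD.bdd
  refine ⟨B, (abs_nonneg _).trans (hB 0 0), ?_⟩
  exact (hG d D hD).2.1 B (Filter.Eventually.of_forall (fun z _ => hB z.1 z.2))

theorem small_lt {n : ℕ} {t : ℝ} (ht : 1 ≤ t) : 1 / (4 * ((n : ℝ) + 1)) < t := by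
  have h0 : (0 : ℝ) ≤ n := Nat.cast_nonneg n
  rw [div_lt_iff₀ (by positivity)]
  nlinarith

theorem shift_ae {d : ℕ} {P : ℝ × (Fin d → ℝ) → Prop} (h : ∀ᵐ z : ℝ × (Fin d → ℝ), P z) :
    ∀ᵐ z : ℝ × (Fin d → ℝ), P (z.1 + 1, z.2) := by
  have h1 : MeasurePreserving (fun z : ℝ × (Fin d → ℝ) => (z.1 + 1, z.2))
      (volume : Measure (ℝ × (Fin d → ℝ))) volume :=
    (measurePreserving_add_right (volume : Measure ℝ) 1).prod (MeasurePreserving.id _)
  exact h1.quasiMeasurePreserving.ae h

theorem KEY3.main (hW : S_WEQ) (hK : S_KB) (hG : S_MOLG) (hD : S_MOLD) (hV : S_DIV2) (hI : S_IBP) :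
    S_KEY3 := by
  intro d T p b hT hb hb2 S K H c h v hS hST hv
  have hS0 : 0 < S := lt_trans one_pos hS
  have hF : Src S (FF c h v) := Src_FF hv
  set F := FF c h v with hFdef
  set Ph := Phi S F with hPh
  obtain ⟨kb1, kb2, kb3, -⟩ := hK d S F hS0 hF
  have kb1' : BMP Ph := kb1
  obtain ⟨B0, hB0, mb0⟩ := mol_bd hG kb1'
  have hvel : ∀ i, ∀ (n : ℕ) t x, 1 / (4 * ((n : ℝ) + 1)) < t →
      pd i (mol n Ph t) x = mol n (Vel S F i) t x := by
    intro i
    exact (hD d Ph (Vel S F i) kb1' (kb2 i)).2 i (fun f hf => (hW d S F hS0 hF f hf).2 i)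
  have hPz : ∀ t, S ≤ t → ∀ x, Ph t x = 0 := fun t ht x => (kb3 t ht x).1
  obtain ⟨g1, g2, g3, g4⟩ := hG d Ph kb1'
  have hlimv : ∀ i, ∀ᵐ z : ℝ × (Fin d → ℝ), Tendsto (fun n => U (mol n (Vel S F i)) z) atTop
      (𝓝 (U (Vel S F i) z)) := fun i => (hG d _ (kb2 i)).2.2.1
  have hsv : ∀ i n, SmoothPer (mol n (Vel S F i)) := fun i => (hG d _ (kb2 i)).1
  constructor
  · -- part 1
    choose Bv hBv mbv using fun i => mol_bd hG (kb2 i)
    have hbint : Integrable (fun z : ℝ × (Fin d → ℝ) => ∑ i, |U b z i| * (Bv i * B0)) (mu d (Ioo 0 T)) := by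
      have hbi : Integrable (U b) (mu d (Ioo 0 T)) := by
        refine ⟨hb.meas.aestronglyMeasurable, ?_⟩
        have h1 : ∫⁻ z, ‖U b z‖ₑ ^ 2 ∂(mu d (Ioo 0 T)) < ⊤ := by
          unfold mu
          rw [lintegral_prod _ (by
            exact (hb.meas.enorm.pow_const 2).aemeasurable)]
          exact hb2
        have h2 : ∫⁻ z, (1 + ‖U b z‖ₑ ^ 2) ∂(mu d (Ioo 0 T)) < ⊤ := by
          rw [lintegral_add_left measurable_const]
          refine ENNReal.add_lt_top.mpr ⟨?_, h1⟩
          rw [lintegral_const, one_mul]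
          unfold mu
          rw [← Set.univ_prod_univ, Measure.prod_prod, Measure.restrict_apply_univ,
            Measure.restrict_apply_univ]
          exact ENNReal.mul_lt_top (by simp) (Q_finite d)
        refine lt_of_le_of_lt (lintegral_mono (fun z => ?_)) h2
        rcases le_total (‖U b z‖ₑ) 1 with h3 | h3
        · exact h3.trans le_self_add
        · exact (le_self_pow₀ h3 (by norm_num)).trans le_add_self
      refine integrable_finset_sum _ (fun i _ => Integrable.mul_const ?_ _)
      refine Integrable.abs ?_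
      refine hbi.mono ((measurable_pi_apply i).comp hb.meas).aestronglyMeasurable
        (Filter.Eventually.of_forall (fun z => norm_le_pi_norm (U b z) i))
    have hconv := dct (d := d) (I := Ioo 0 T)
      (fun n t x => ∑ i, b t x i * (mol n (Vel S F i) (t + 1) x * mol n Ph (t + 1) x))
      (fun t x => ∑ i, b t x i * (Vel S F i (t + 1) x * Ph (t + 1) x))
      (fun t x => ∑ i, |b t x i| * (Bv i * B0)) (by
        intro n
        apply Measurable.aestronglyMeasurable
        have : U (fun t x => ∑ i, b t x i * (mol n (Vel S F i) (t + 1) x * mol n Ph (t + 1) x))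
          = fun z : ℝ × (Fin d → ℝ) => ∑ i, U b z i * (U (mol n (Vel S F i)) (z.1 + 1, z.2)
            * U (mol n Ph) (z.1 + 1, z.2)) := rfl
        rw [this]
        refine Finset.measurable_sum _ (fun i _ => ?_)
        refine ((measurable_pi_apply i).comp hb.meas).mul (Measurable.mul ?_ ?_)
        · exact (hsv i n).smooth.continuous.measurable.comp (by fun_prop)
        · exact (g1 n).smooth.continuous.measurable.comp (by fun_prop)) (by
        apply Measurable.aestronglyMeasurable
        have : U (fun t x => ∑ i, b t x i * (Vel S F i (t + 1) x * Ph (t + 1) x))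
          = fun z : ℝ × (Fin d → ℝ) => ∑ i, U b z i * (U (Vel S F i) (z.1 + 1, z.2)
            * U Ph (z.1 + 1, z.2)) := rfl
        rw [this]
        refine Finset.measurable_sum _ (fun i _ => ?_)
        refine ((measurable_pi_apply i).comp hb.meas).mul (Measurable.mul ?_ ?_)
        · exact (kb2 i).meas.comp (by fun_prop)
        · exact kb1'.meas.comp (by fun_prop)) hbint (by
        intro n
        refine ae_mu_mem measurableSet_Ioo (fun z hz _ => ?_)
        have hz1 : (1 : ℝ) ≤ z.1 + 1 := by linarith [hz.1]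
        refine (Finset.abs_sum_le_sum_abs _ _).trans (Finset.sum_le_sum (fun i _ => ?_))
        rw [abs_mul, abs_mul]
        refine mul_le_mul_of_nonneg_left ?_ (abs_nonneg _)
        exact mul_le_mul (mbv i n _ _ (small_lt hz1)) (mb0 n _ _ (small_lt hz1)) (abs_nonneg _)
          (hBv i)) (by
        refine ae_mu measurableSet_Ioo ?_
        filter_upwards [shift_ae g3, ae_all_iff.mpr (fun i => shift_ae (hlimv i))] with z h1 h2
        exact tendsto_finset_sum _ (fun i _ => ((h2 i).mul h1).const_mul _))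
    have hz : ∀ᶠ n : ℕ in atTop, ∫ t in Ioo 0 T, ∫ x in Q d,
        ∑ i, b t x i * (mol n (Vel S F i) (t + 1) x * mol n Ph (t + 1) x) = 0 := by
      have hlim : Tendsto (fun n : ℕ => 1 / (4 * ((n : ℝ) + 1))) atTop (𝓝 0) := by
        have h1 := (tendsto_one_div_add_atTop_nhds_zero_nat (𝕜 := ℝ)).const_mul (1 / 4 : ℝ)
        simp only [mul_zero] at h1
        refine h1.congr ?_
        intro n
        field_simp
      filter_upwards [hlim.eventually_lt_const (show (0 : ℝ) < 1 + T - S by linarith)] with n hn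
      have hsm : ContDiff ℝ (⊤ : ℕ∞) (fun z : ℝ × (Fin d → ℝ) => U (mol n Ph) (z.1 + 1, z.2)) :=
        (g1 n).smooth.comp (by fun_prop)
      have htest : IsTest T (fun t x => (mol n Ph (t + 1) x) ^ 2 / 2) := by
        refine ⟨⟨?_, ?_⟩, S - 1 + 1 / (4 * ((n : ℝ) + 1)), by linarith, ?_⟩
        · have : U (fun t x => (mol n Ph (t + 1) x) ^ 2 / 2)
            = fun z : ℝ × (Fin d → ℝ) => (U (mol n Ph) (z.1 + 1, z.2)) ^ 2 / 2 := rfl
          rw [this]
          exact (hsm.pow 2).div_const 2
        · intro t x k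
          simp only
          rw [(g1 n).per (t + 1) x k]
        · intro t ht x
          have := g4 S hPz n (t + 1) (by linarith) x
          simp [this]
      have h0 := hV d T p b hT hb hb2 _ htest
      refine Eq.trans ?_ h0
      apply setIntegral_congr_fun measurableSet_Ioo
      intro t ht
      simp only
      refine integral_congr_ae (Filter.Eventually.of_forall (fun x => ?_))
      refine Finset.sum_congr rfl (fun i _ => ?_)
      have hdiff : DifferentiableAt ℝ (mol n Ph (t + 1)) x :=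
        (diff_sl (g1 n).smooth (t + 1)).differentiableAt
      have : pd i (fun x => (mol n Ph (t + 1) x) ^ 2 / 2) x
          = mol n Ph (t + 1) x * pd i (mol n Ph (t + 1)) x := by
        unfold pd
        have hfd : HasFDerivAt (fun x => (mol n Ph (t + 1) x) ^ 2 / 2)
            (mol n Ph (t + 1) x • fderiv ℝ (mol n Ph (t + 1)) x) x := by
          have h1 := (hdiff.hasFDerivAt.pow 2).mul_const (1 / 2 : ℝ)
          have h2 : (1 / 2 : ℝ) • ((2 : ℕ) • mol n Ph (t + 1) x ^ (2 - 1)) • fderiv ℝ (mol n Ph (t + 1)) x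
              = mol n Ph (t + 1) x • fderiv ℝ (mol n Ph (t + 1)) x := by
            rw [smul_smul]
            congr 1
            simp
          have h3 : (fun x => (mol n Ph (t + 1) x) ^ 2 / 2)
              = fun x => (mol n Ph (t + 1) x) ^ 2 * (1 / 2 : ℝ) := by
            funext y; ring
          rw [h3, ← h2]
          simpa using h1
        rw [hfd.fderiv]
        simp
      rw [this, hvel i n (t + 1) x (small_lt (by linarith [ht.1]))]
      ring
    have hzero := tendsto_nhds_unique hconv (tendsto_const_nhds.congr' (hz.mono (fun n h => h.symm)))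
    refine Eq.trans ?_ hzero
    apply setIntegral_congr_fun measurableSet_Ioo
    intro t _
    simp only
    refine integral_congr_ae (Filter.Eventually.of_forall (fun x => ?_))
    simp only
    rw [Finset.sum_mul]
    refine Finset.sum_congr rfl (fun i _ => ?_)
    rw [hv.eq (t + 1) x i]
    ring
  · -- part 2
    intro f i hf
    obtain ⟨Bi, hBi, mbi⟩ := mol_bd hG (kb2 i)
    have hcpt : IsCompact (Icc (1 : ℝ) S ×ˢ Icc (0 : Fin d → ℝ) 1) := isCompact_Icc.prod isCompact_Icc
    obtain ⟨C1, hC1⟩ := hcpt.exists_bound_of_continuousOn hf.smooth.continuous.continuousOn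
    obtain ⟨C2, hC2⟩ := hcpt.exists_bound_of_continuousOn (smooth_D1 hf.smooth i).continuous.continuousOn
    have hfin : IsFiniteMeasure (mu d (Ioo 1 S)) := by
      refine ⟨?_⟩
      unfold mu
      rw [← Set.univ_prod_univ, Measure.prod_prod, Measure.restrict_apply_univ,
        Measure.restrict_apply_univ]
      exact ENNReal.mul_lt_top (by simp) (Q_finite d)
    have mem : ∀ z : ℝ × (Fin d → ℝ), z.1 ∈ Ioo 1 S → z.2 ∈ Q d →
        z ∈ Icc (1 : ℝ) S ×ˢ Icc (0 : Fin d → ℝ) 1 := fun z h1 h2 =>
      ⟨⟨h1.1.le, h1.2.le⟩, Q_subset_Icc d h2⟩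
    have cA := dct (d := d) (I := Ioo 1 S)
      (fun n t x => pd i (f t) x * mol n Ph t x) (fun t x => pd i (f t) x * Ph t x)
      (fun _ _ => C2 * B0)
      (fun n => ((smooth_D1 hf.smooth i).continuous.measurable.mul
        (g1 n).smooth.continuous.measurable).aestronglyMeasurable)
      ((smooth_D1 hf.smooth i).continuous.measurable.mul kb1'.meas).aestronglyMeasurable
      (integrable_const _) (by
        intro n
        refine ae_mu_mem measurableSet_Ioo (fun z hz hz2 => ?_)
        have e1 : |pd i (f z.1) z.2| ≤ C2 := hC2 z (mem z hz hz2)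
        have e2 := mb0 n z.1 z.2 (small_lt hz.1.le)
        simp only [U]
        rw [abs_mul]
        exact mul_le_mul e1 e2 (abs_nonneg _) ((abs_nonneg _).trans e1)) (by
        refine ae_mu measurableSet_Ioo ?_
        filter_upwards [g3] with z h1
        exact h1.const_mul _)
    have cB := dct (d := d) (I := Ioo 1 S)
      (fun n t x => f t x * mol n (Vel S F i) t x) (fun t x => f t x * Vel S F i t x)
      (fun _ _ => C1 * Bi)
      (fun n => (hf.smooth.continuous.measurable.mul
        (hsv i n).smooth.continuous.measurable).aestronglyMeasurable)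
      (hf.smooth.continuous.measurable.mul (kb2 i).meas).aestronglyMeasurable
      (integrable_const _) (by
        intro n
        refine ae_mu_mem measurableSet_Ioo (fun z hz hz2 => ?_)
        have e1 : |f z.1 z.2| ≤ C1 := hC1 z (mem z hz hz2)
        have e2 := mbi n z.1 z.2 (small_lt hz.1.le)
        simp only [U]
        rw [abs_mul]
        exact mul_le_mul e1 e2 (abs_nonneg _) ((abs_nonneg _).trans e1)) (by
        refine ae_mu measurableSet_Ioo ?_
        filter_upwards [hlimv i] with z h1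
        exact h1.const_mul _)
    have hAB : ∀ n, ∫ t in Ioo 1 S, ∫ x in Q d, pd i (f t) x * mol n Ph t x
        = - ∫ t in Ioo 1 S, ∫ x in Q d, f t x * mol n (Vel S F i) t x := by
      intro n
      rw [← integral_neg]
      apply setIntegral_congr_fun measurableSet_Ioo
      intro t ht
      simp only
      have hs1 : ContDiff ℝ (⊤ : ℕ∞) (f t) := by
        have : ContDiff ℝ (⊤ : ℕ∞) (fun x : Fin d → ℝ => U f (t, x)) := hf.smooth.comp (by fun_prop)
        exact this
      have hs2 : ContDiff ℝ (⊤ : ℕ∞) (mol n Ph t) := by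
        have : ContDiff ℝ (⊤ : ℕ∞) (fun x : Fin d → ℝ => U (mol n Ph) (t, x)) :=
          (g1 n).smooth.comp (by fun_prop)
        exact this
      have h0 := hI d (fun x => f t x * mol n Ph t x)
        ((hs1.mul hs2).of_le (by simp)) (by
          intro x k
          simp only
          rw [hf.per t x k, (g1 n).per t x k]) i
      have hpd : ∀ x, pd i (fun x => f t x * mol n Ph t x) x
          = pd i (f t) x * mol n Ph t x + f t x * mol n (Vel S F i) t x := by
        intro x
        have d1 : DifferentiableAt ℝ (f t) x := (diff_sl hf.smooth t).differentiableAt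
        have d2 : DifferentiableAt ℝ (mol n Ph t) x := (diff_sl (g1 n).smooth t).differentiableAt
        have e3 := hvel i n t x (small_lt ht.1.le)
        rw [← e3]
        unfold pd
        rw [fderiv_fun_mul d1 d2]
        simp
        ring
      simp_rw [hpd] at h0
      have c1 : Continuous (fun x => pd i (f t) x * mol n Ph t x) := by
        have q1 : Continuous (fun x : Fin d → ℝ => U (D1 i f) (t, x)) :=
          (smooth_D1 hf.smooth i).continuous.comp (by fun_prop)
        exact q1.mul hs2.continuous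
      have c2 : Continuous (fun x => f t x * mol n (Vel S F i) t x) :=
        hs1.continuous.mul (sp_cont (hsv i n) t)
      rw [integral_add (cont_intOn c1) (cont_intOn c2)] at h0
      linarith
    have hlimA : Tendsto (fun n => - ∫ t in Ioo 1 S, ∫ x in Q d, f t x * mol n (Vel S F i) t x)
        atTop (𝓝 (∫ t in Ioo 1 S, ∫ x in Q d, pd i (f t) x * Ph t x)) := by
      refine cA.congr ?_
      intro n; exact hAB n
    have := tendsto_nhds_unique hlimA cB.neg
    rw [this]
    congr 1
    apply setIntegral_congr_fun measurableSet_Ioo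
    intro t _
    simp only
    refine integral_congr_ae (Filter.Eventually.of_forall (fun x => ?_))
    simp only
    rw [hv.eq t x i]

end Pool.Agent.Helper75.ND
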